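import Pool.Agent.F5H.StmtsG

/-!
MP_f5cbfa_nt, squad F5H, row C_I4 (helper38)
-/

set_option autoImplicit false

open MeasureTheory Complex ComplexConjugate

namespace Pool.Agent.F5H.BC.H38

open Pool.Agent.BTL Pool.Agent.F5S Pool.Agent.F5H Pool.Agent.F5.H58 Pool.Agent.F5H.BC

variable {T Q : ℝ} {V : Fin 3 → ℝ} {k0 : ℝ} {s : Bool × Bool} {h k : R6} {A : ℝ × ℝ × ℝ}

theorem qinv (X : Ctr T Q V k0 s h k A) (n : ℕ) : 0 < 1 / Q ^ n := by
  have := X.Q0
  positivity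

theorem r1_facts (X : Ctr T Q V k0 s h k A) :
    0 < r1 T Q V k0 ∧ r1 T Q V k0 ≤ 1 / Q ^ 60 ∧
      r1 T Q V k0 ^ 2 ≤ kap T (V 0) / k0 / Q ^ 120 := by
  have hQ := X.Q0
  have hk := X.k00
  have hp := X.p0
  have hr := X.p6
  have hV2 := X.V2
  have hs : 0 < √(kap T (V 0) / k0) := Real.sqrt_pos.2 (by positivity)
  have hm : 0 < min k0⁻¹ (min (Rx T / T / V 2) (√(kap T (V 0) / k0))) :=
    lt_min (by positivity) (lt_min (by positivity) hs)
  have hQ60 : 0 < Q ^ 60 := by positivity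
  unfold r1 rhA
  refine ⟨by positivity, ?_, ?_⟩
  · refine (div_le_div_iff_of_pos_right hQ60).2 ((min_le_left _ _).trans ?_)
    exact inv_le_one_of_one_le₀ X.k1
  · rw [div_pow]
    have h1 : min k0⁻¹ (min (Rx T / T / V 2) (√(kap T (V 0) / k0))) ≤ √(kap T (V 0) / k0) :=
      (min_le_right _ _).trans (min_le_right _ _)
    have h2 := pow_le_pow_left₀ hm.le h1 2
    rw [Real.sq_sqrt (by positivity)] at h2
    have h3 : (Q ^ 60) ^ 2 = Q ^ 120 := by ring
    rw [h3]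
    exact (div_le_div_iff_of_pos_right (by positivity)).2 h2

theorem r2_facts (X : Ctr T Q V k0 s h k A) (j : ℕ) :
    0 < r2 T Q V k0 h A j ∧ r2 T Q V k0 h A j ≤ sF T A h / Q ^ 60 := by
  have hQ := X.Q0
  have hS := X.S0
  have hk := X.k00
  have hz := X.ze0
  have hd : 0 < dl k0 j := lt_of_lt_of_le (inv_pos.2 hk) (le_max_right _ _)
  have hm : 0 < min 1 (dl k0 j * k0 ^ 2 * ze T V)⁻¹ := lt_min one_pos (by positivity)
  unfold r2 rhZ
  refine ⟨by positivity, (div_le_div_iff_of_pos_right (by positivity)).2 ?_⟩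
  exact mul_le_of_le_one_right hS.le (min_le_left _ _)

theorem i4 : I4Stmt := by
  intro mg i3
  obtain ⟨C, hC, hM⟩ := matw
  refine ⟨C, hC, ?_⟩
  intro T Q V k0 s h k A j hCQ X hkp
  obtain ⟨hE, hEE⟩ := i3 T Q V k0 s h k A j X
  obtain ⟨ρ0, ρ1, ρ2⟩ := r1_facts X
  obtain ⟨ρz0, ρz1⟩ := r2_facts X j
  have hQ := X.Q0
  have hQ1 := X.hQ
  have hS := X.S0
  have hS3 := X.S3
  have hk0 := X.k00
  have hp0 := X.p0
  have hp1 := X.p1
  have hp2 := X.p2
  have hp3 := X.p3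
  have hkA1 := X.kA1
  have hkA2 := X.kA2
  have hC0 : 0 < C := by linarith
  have hK : 0 < ‖kG A k‖ := by
    by_contra hc
    have h1 : ‖kG A k‖ = 0 := le_antisymm (not_lt.1 hc) (norm_nonneg _)
    rw [h1, mul_zero] at hkA1
    linarith
  have hK1 : 1 ≤ Q ^ 2 * ‖kG A k‖ := X.k1.trans hkA1
  have hd0 : 0 < dl k0 j := lt_of_lt_of_le (inv_pos.2 hk0) (le_max_right _ _)
  have hd1 : dl k0 j ≤ 1 := max_le (pow_le_one₀ (by norm_num) (by norm_num))
    (inv_le_one_of_one_le₀ X.k1)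
  have hdk : k0⁻¹ ≤ dl k0 j := le_max_right _ _
  have hdk' : 1 ≤ k0 * dl k0 j := by
    have h1 := mul_le_mul_of_nonneg_left hdk hk0.le
    rwa [mul_inv_cancel₀ hk0.ne'] at h1
  -- powers
  have hpw : ∀ a b : ℕ, a ≤ b → Q ^ a ≤ Q ^ b := fun a b hab => X.pw hab
  have hkap : kap T (V 0) ≤ 1 / Q ^ 100 := by
    rw [le_div_iff₀ (by positivity)]
    linarith
  have hSQ : sF T A h ≤ 1 / Q ^ 94 := by
    rw [le_div_iff₀ (by positivity)]
    linarith
  have hinvK : 1 / Q ^ 2 ≤ ‖kG A k‖ := by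
    rw [div_le_iff₀ (by positivity)]
    linarith
  have e1 : 1 / Q ^ 96 ≤ 1 / 2 * (1 / Q ^ 25 * ‖kG A k‖) := by
    have h1 : 1 / Q ^ 25 * (1 / Q ^ 2) ≤ 1 / Q ^ 25 * ‖kG A k‖ :=
      mul_le_mul_of_nonneg_left hinvK (qinv X 25).le
    have h2 : 1 / Q ^ 25 * (1 / Q ^ 2) = 1 / Q ^ 27 := by
      rw [one_div_mul_one_div]; ring_nf
    rw [h2] at h1
    have h3 : 1 / Q ^ 96 ≤ 1 / 2 * (1 / Q ^ 27) := by
      rw [one_div_mul_one_div]
      refine one_div_le_one_div_of_le (by positivity) ?_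
      have h4 : 2 * Q ^ 27 ≤ Q ^ 28 := by
        have : Q ^ 28 = Q * Q ^ 27 := by ring
        rw [this]
        exact mul_le_mul_of_nonneg_right (by linarith) (by positivity)
      exact h4.trans (hpw 28 96 (by norm_num))
    linarith
  have c1 : Q ^ 4 * kap T (V 0) ≤ 1 / Q ^ 96 := by
    have h1 := mul_le_mul_of_nonneg_left hkap (pow_pos hQ 4).le
    have h2 : Q ^ 4 * (1 / Q ^ 100) = 1 / Q ^ 96 := by
      field_simp
    linarith
  have hKz : C * (‖kG A k‖ * (2 * sF T A h)) ≤ 1 / 2 * (1 / Q ^ 25 * ‖kG A k‖) := by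
    have h1 : C * (‖kG A k‖ * (2 * sF T A h)) ≤ Q * (‖kG A k‖ * (2 * (1 / Q ^ 94))) := by
      refine mul_le_mul hCQ ?_ (by positivity) hQ.le
      exact mul_le_mul_of_nonneg_left (mul_le_mul_of_nonneg_left hSQ (by norm_num)) hK.le
    refine h1.trans ?_
    have h2 : Q * (‖kG A k‖ * (2 * (1 / Q ^ 94))) = 2 / Q ^ 93 * ‖kG A k‖ := by
      field_simp
    have h3 : 1 / 2 * (1 / Q ^ 25 * ‖kG A k‖) = 1 / (2 * Q ^ 25) * ‖kG A k‖ := by
      field_simp
    rw [h2, h3]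
    refine mul_le_mul_of_nonneg_right ?_ hK.le
    rw [div_le_div_iff₀ (by positivity) (by positivity)]
    have h4 : 2 * (2 * Q ^ 25) ≤ Q ^ 26 := by
      have : Q ^ 26 = Q * Q ^ 25 := by ring
      rw [this]
      nlinarith [pow_pos hQ 25]
    linarith [hpw 26 93 (by norm_num)]
  have hA2 : 0 < A2j Q k0 j := by
    unfold A2j
    positivity
  have hA2' : A2j Q k0 j = Q ^ 4 * (k0 * dl k0 j) := by
    unfold A2j
    ring
  -- choice of gamma
  obtain ⟨γ, hγ0, hγ1, hγ2⟩ : ∃ γ : ℝ, 0 ≤ γ ∧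
      (2 * r2 T Q V k0 h A j ≤ γ ∨ (0 < A1j Q k0 j ∧
        C * (‖kG A k‖ * (2 * sF T A h)) ≤ A1j Q k0 j ∧
        8 * (Q ^ 2 * kpr T (V 0)) / A1j Q k0 j ≤ γ)) ∧
      C * ((Q ^ 4 * kap T (V 0)) ^ 2 * γ) /
        ((1 / Q) ^ 20 * ‖kG A k‖ ^ 2 * r1 T Q V k0 ^ 2 * r2 T Q V k0 h A j) ≤
          Q ^ 400 * gain T V k0 (dl k0 j) := by
    obtain ⟨g1, g2⟩ := mg T Q C V k0 (dl k0 j) ‖kG A k‖ (sF T A h) (A1j Q k0 j) (by linarith) hC
      hCQ X.hT X.v2 X.v12 X.v01 X.k1 hdk hd1 hkA1 hS X.S1 X.p6 hkp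
    by_cases hc : k0⁻¹ ≤ (1 / 2) ^ j
    · have hA1 : A1j Q k0 j = A2j Q k0 j / 2 := by
        unfold A1j
        rw [if_pos hc]
      have hA10 : 0 < A1j Q k0 j := by rw [hA1]; linarith
      refine ⟨min (2 * r2 T Q V k0 h A j) (8 * (Q ^ 2 * kpr T (V 0)) / A1j Q k0 j),
        le_min (by linarith) (by positivity), ?_, ?_⟩
      · rcases le_total (2 * r2 T Q V k0 h A j) (8 * (Q ^ 2 * kpr T (V 0)) / A1j Q k0 j) with
          h1 | h1
        · left
          exact le_min le_rfl h1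
        · right
          refine ⟨hA10, ?_, le_min h1 le_rfl⟩
          have h2 := X.Kz (z := 2 * sF T A h) (by positivity) le_rfl
          have h3 : 1 ≤ A1j Q k0 j := by
            rw [hA1, hA2']
            have h4 : (2 : ℝ) ≤ Q ^ 4 := by
              have := hpw 1 4 (by norm_num)
              rw [pow_one] at this
              linarith
            nlinarith
          refine le_trans ?_ h3
          have h4 : C * (‖kG A k‖ * (2 * sF T A h)) ≤ Q ^ 90 * (‖kG A k‖ * (2 * sF T A h)) := by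
            refine mul_le_mul_of_nonneg_right ?_ (by positivity)
            have := hpw 1 90 (by norm_num)
            rw [pow_one] at this
            linarith
          have h5 : (1 : ℝ) / Q ^ 100 ≤ 1 := by
            rw [div_le_one (by positivity)]
            exact one_le_pow₀ (by linarith)
          linarith
      · refine g1 hA10 ?_
        rw [hA1, hA2']
        have h4 : (1 : ℝ) ≤ Q ^ 3 * (Q ^ 4 / 2) := by
          have h5 : Q ^ 3 * (Q ^ 4 / 2) = Q ^ 7 / 2 := by ring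
          rw [h5]
          have := hpw 1 7 (by norm_num)
          rw [pow_one] at this
          linarith
        have h5 : Q ^ 3 * (Q ^ 4 * (k0 * dl k0 j) / 2) = (Q ^ 3 * (Q ^ 4 / 2)) * (dl k0 j * k0) := by
          ring
        rw [h5]
        exact le_mul_of_one_le_left (by positivity) h4
    · have hdl : dl k0 j = k0⁻¹ := max_eq_right (not_le.1 hc).le
      refine ⟨2 * r2 T Q V k0 h A j, by linarith, Or.inl le_rfl, ?_⟩
      rw [hdl]
      have hr2 : r2 T Q V k0 h A j = rhZ T Q V k0 k0⁻¹ (sF T A h) := by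
        unfold r2
        rw [hdl]
      rw [hr2]
      exact g2
  have hmain := hM (Pc A s h) (bc A h) (kG A k) (1 / Q ^ 50) (Q ^ 4 * (Rx T / T / V 2)) (1 / Q)
    (1 / Q ^ 25) (sF T A h / 2) (2 * sF T A h) (Q ^ 4 * kap T (V 0)) (Q ^ 2 * kpr T (V 0))
    (A1j Q k0 j) (A2j Q k0 j) (r1 T Q V k0) (r2 T Q V k0 h A j) γ (Ew T Q V s h k A)
    (Ew' T Q V s h k A) X.std X.bc_le (by positivity) (by positivity)
    (by rw [div_le_one hQ]; linarith) (by positivity) ?_ (norm_pos_iff.1 hK) (by positivity)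
    (by positivity) hA2.le ?_ ?_ ?_ ρ0 ?_ ?_ ρz0 ?_ hγ0 hγ1 hE hEE
  · refine hmain.trans ?_
    refine mul_le_mul' (ENNReal.ofReal_le_ofReal hγ2) le_rfl
  · exact (mul_le_mul_of_nonneg_right hCQ (by positivity)).trans (X.zz le_rfl)
  · linarith [mul_pos (qinv X 25) hK]
  · have h1 : Q ^ 2 * kpr T (V 0) ≤ 1 / Q ^ 96 := by
      refine le_trans ?_ c1
      exact mul_le_mul (hpw 2 4 (by norm_num)) hp3 hp2.le (by positivity)
    linarith
  · have h1 : √(1 / Q ^ 50) = 1 / Q ^ 25 := by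
      rw [Real.sqrt_eq_iff_mul_self_eq (by positivity) (by positivity), one_div_mul_one_div]
      ring_nf
    rw [h1, div_pow, one_pow]
    have h2 : C * (1 / Q ^ 25 + 1 / Q ^ 25) ≤ Q * (1 / Q ^ 25 + 1 / Q ^ 25) :=
      mul_le_mul_of_nonneg_right hCQ (by positivity)
    refine h2.trans ?_
    have h3 : Q * (1 / Q ^ 25 + 1 / Q ^ 25) = 2 / Q ^ 24 := by
      field_simp
      try norm_num
    rw [h3, div_le_div_iff₀ (by positivity) (by positivity)]
    have h4 : 2 * Q ^ 20 ≤ Q ^ 21 := by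
      have : Q ^ 21 = Q * Q ^ 20 := by ring
      rw [this]
      exact mul_le_mul_of_nonneg_right (by linarith) (by positivity)
    linarith [hpw 21 24 (by norm_num)]
  · have h1 : C * r1 T Q V k0 ≤ Q * (1 / Q ^ 60) := mul_le_mul hCQ ρ1 ρ0.le hQ.le
    refine h1.trans ?_
    have h2 : Q * (1 / Q ^ 60) = 1 / Q ^ 59 := by
      field_simp
    rw [h2]
    refine one_div_le_one_div_of_le hQ ?_
    have := hpw 1 59 (by norm_num)
    rwa [pow_one] at this
  · have h1 : C * (‖kG A k‖ * r1 T Q V k0 ^ 2) ≤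
        Q * (Q ^ 2 * k0 * (kap T (V 0) / k0 / Q ^ 120)) := by
      refine mul_le_mul hCQ ?_ (by positivity) hQ.le
      exact mul_le_mul hkA2 ρ2 (by positivity) (by positivity)
    refine h1.trans ?_
    have h2 : Q * (Q ^ 2 * k0 * (kap T (V 0) / k0 / Q ^ 120)) = 1 / Q ^ 117 * kap T (V 0) := by
      field_simp
    rw [h2]
    refine mul_le_mul_of_nonneg_right ?_ hp0.le
    have h3 : 1 / Q ^ 117 ≤ 1 := by
      rw [div_le_one (by positivity)]
      exact one_le_pow₀ (by linarith)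
    have h4 : (1 : ℝ) ≤ Q ^ 4 := one_le_pow₀ (by linarith)
    linarith
  · refine ρz1.trans ?_
    rw [div_le_iff₀ (by positivity)]
    have h1 : (4 : ℝ) ≤ Q ^ 60 := by
      have := hpw 1 60 (by norm_num)
      rw [pow_one] at this
      linarith
    nlinarith

end Pool.Agent.F5H.BC.H38
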